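import Pool.Agent.Lib.MP_edd14c_al.Main

/-!
# Q1 of MP_edd14c_al has a positive answer

There is a variety of commutative ℓ-bimonoids properly containing the bounded distributive
lattices in which the complemented Dedekind-MacNeille completion of every algebra belongs to the
variety and is its injective hull. The variety is the one generated by the two-element bounded
distributive lattice and the four-element chain `bot < 1 < 0 < top` with `0 * 0 = top` and
`1 + 1 = bot`.
-/

universe u

namespace Pool.Agent.Results.MP_edd14c_al.CompletionsAreHulls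

open Pool.Agent.Lib.MP_edd14c_al

theorem result : ∃ Eqs : Set (Tm × Tm),
    (∀ (A : Type u) [CommLBimonoid A], IsBDL A → InVariety Eqs A) ∧
    (∃ (A : Type u) (_ : CommLBimonoid A), InVariety Eqs A ∧ ¬ IsBDL A) ∧
    ∀ (A : Type u) [CommLBimonoid A], InVariety Eqs A →
      (∃ (B : Type u) (_ : CommLBimonoid B) (e : BHom A B), IsComplDMCompletion e) ∧
      ∀ (B : Type u) [CommLBimonoid B] (e : BHom A B), IsComplDMCompletion e →
        InVariety Eqs B ∧ IsInjectiveHull Eqs e := by
  refine ⟨theEqs, fun A _ hA => bdl_inVariety hA, exists_not_bdl, ?_⟩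
  intro A _ hA
  obtain ⟨B, inst, e, he, hhull⟩ := exists_completion_hull A hA
  refine ⟨⟨B, inst, e, he⟩, ?_⟩
  intro B' _ e' he'
  obtain ⟨φ, ψ, h1, h2, h3, h4⟩ := completion_unique he' he
  have := isInjectiveHull_of_iso theEqs hhull φ ψ h1 h2 h3 h4
  exact ⟨this.1, this⟩

end Pool.Agent.Results.MP_edd14c_al.CompletionsAreHulls
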